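import Pool.Agent.TH464.PO.SqOne
import Pool.Agent.TH464.PO.PolyGap

set_option autoImplicit false

/-!
# The exponential law for the gaps between almost prime values of `m ^ 2 + 1`

Let `m` be good if `m ^ 2 + 1` has at most `2 r` prime factors, all larger than `X ^ (1 / r)`, and let
`V` be the product of `1 - ρ(p) / p` over the primes `p ≤ X ^ (1 / r)`. In every interval `(X, X + Y]`
with `X ^ θ ≤ Y ≤ X` the gaps between consecutive good integers have, in the scale `1 / V`, the
exponential distribution up to `ε`, uniformly in all gap lengths; more generally the distances between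
a good integer and its `k`-th good predecessor have the Gamma distribution up to `ε`.
-/

namespace Pool.Agent.Results.MP_7169d5_nt.ExponentialGaps

open Finset Filter

/-- `m ^ 2 + 1` has at most `2 r` prime factors (with multiplicity), all larger than `X ^ (1 / r)`. -/
def AlmostPrimeValue (r X m : ℕ) : Prop :=
  (m ^ 2 + 1).primeFactorsList.length ≤ 2 * r ∧
    ∀ p : ℕ, p.Prime → p ∣ m ^ 2 + 1 → (X : ℝ) ^ (1 / (r : ℝ)) < (p : ℝ)

open Classical in
/-- The sieve density: the product of `1 - ρ(p) / p` over the primes `p ≤ X ^ (1 / r)`, where `ρ(p)` is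
the number of the `a` mod `p` with `p ∣ a ^ 2 + 1`. -/
noncomputable def V (r X : ℕ) : ℝ :=
  ∏ p ∈ (Finset.range (⌊(X : ℝ) ^ (1 / (r : ℝ))⌋₊ + 1)).filter Nat.Prime,
    (1 - (((Finset.range p).filter (fun a => p ∣ a ^ 2 + 1)).card : ℝ) / p)

open Classical in
/-- The number of the good `b` in `(X, X + Y]` with fewer than `k` good integers in `[b - T, b)`, that is,
whose `k`-th good predecessor is at distance more than `T`. For `k = 1`: the good `b` in `(X, X + Y]`
with gap more than `T` before them. -/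
noncomputable def Far (r X Y k T : ℕ) : ℕ :=
  ((Finset.Ioc X (X + Y)).filter (fun b => AlmostPrimeValue r X b ∧
    ((Finset.Ico (b - T) b).filter (fun m => AlmostPrimeValue r X m)).card < k)).card

open Pool.Agent.TH464.PO Pool.Agent.W123.RU Pool.Agent.W123.RU.Poly Pool.Agent.H373R2.T7
open Pool.Agent.W123.RP

lemma V_eq (r X : ℕ) : Vq (Q sq) ⌊(X : ℝ) ^ (1 / (r : ℝ))⌋₊ = V r X := sq_V _

open Classical in
/-- **The exponential law for the gaps** (`k = 1`, all `T`), and the Gamma law for the distances to the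
`k`-th predecessor, in every short interval. -/
theorem result (θ : ℝ) (hθ : 0 < θ) (k0 : ℕ) (x ε : ℝ) (hε : 0 < ε) :
    ∃ r0 : ℕ, ∀ r : ℕ, r0 ≤ r → ∀ᶠ X : ℕ in atTop, ∀ Y : ℕ, (X : ℝ) ^ θ ≤ Y → Y ≤ X →
      ∀ k T : ℕ, (k ≤ k0 ∨ T * V r X ≤ x) →
        |(Far r X Y k T : ℝ) - Y * V r X *
          ∑ j ∈ Finset.range k, Real.exp (-(T * V r X)) * (T * V r X) ^ j / j.factorial| ≤
            ε * (Y * V r X) := by
  obtain ⟨r0, h0⟩ := gaps sq sq_sys sq_noTr θ hθ k0 x ε hε
  refine ⟨max r0 2, ?_⟩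
  intro r hr
  have hr2 : 2 ≤ r := (le_max_right _ _).trans hr
  have hrr : (2 : ℝ) ≤ r := by exact_mod_cast hr2
  have hpow1 : Tendsto (fun X : ℕ => (X : ℝ) ^ (1 / (r : ℝ))) atTop atTop :=
    (tendsto_rpow_atTop (by positivity)).comp tendsto_natCast_atTop_atTop
  filter_upwards [h0 r ((le_max_left _ _).trans hr), hpow1.eventually_ge_atTop 10,
    eventually_ge_atTop 16] with X hX h10 h16
  intro Y hXY hYX k T hkT
  have hmain := hX Y hXY k T (by rw [V_eq]; exact hkT)
  rw [V_eq] at hmain
  have hcount : Far r X Y k T = Pk (Sf (Q sq) ⌊(X : ℝ) ^ (1 / (r : ℝ))⌋₊) k T X Y := by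
    have hap : ∀ m : ℕ, m ≤ 3 * X → (AlmostPrimeValue r X m ↔
        Sf (Q sq) ⌊(X : ℝ) ^ (1 / (r : ℝ))⌋₊ m) := fun m hm =>
      (sf_AP r (by omega) X (by omega) h10 m hm).symm
    unfold Far Pk
    congr 1
    apply Finset.filter_congr
    intro b hb
    rw [mem_Ioc] at hb
    rw [hap b (by omega)]
    apply and_congr Iff.rfl
    have e : (Finset.Ico (b - T) b).filter (fun m => AlmostPrimeValue r X m) =
        (Finset.Ico (b - T) b).filter (Sf (Q sq) ⌊(X : ℝ) ^ (1 / (r : ℝ))⌋₊) := by
      apply Finset.filter_congr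
      intro m hm
      rw [mem_Ico] at hm
      exact hap m (by omega)
    rw [e]
  rw [hcount]
  exact hmain

end Pool.Agent.Results.MP_7169d5_nt.ExponentialGaps
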