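import Pool.Agent.TH882.T1

/-!
Primes `a ^ 2 + b` with `a = s p + t`, where `s ≥ 2` and `t` are fixed and `p` is an isolated prime:
for all but a proportion `κ` of the vectors `(b_1, ..., b_r)` without local obstruction, all
`(s_j p + t_j) ^ 2 + b_j` are prime for a number of isolated primes `p ≤ x` of the right order.
-/

set_option autoImplicit false

open Finset Filter Topology Polynomial

namespace Pool.Agent.Results.MP_7169d5_nt.MultiplesOfIsolatedPrimes

/-- The only prime at distance at most `R` from `p` is `p` itself (if it is one). -/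
def Isolated (R : ℝ) (p : ℕ) : Prop := ∀ q : ℕ, q.Prime → |(q : ℝ) - p| ≤ R → q = p

/-- For every prime `l` there is an integer `n` such that `l` divides none of the numbers `n` and
`(s_j * n + t_j) ^ 2 + b_j`. -/
def Admissible {r : ℕ} (s : Fin r → ℕ) (t : Fin r → ℤ) (b : Fin r → ℕ) : Prop :=
  ∀ l : ℕ, l.Prime → ∃ n : ℤ, ¬ (l : ℤ) ∣ n ∧ ∀ j, ¬ (l : ℤ) ∣ (s j * n + t j) ^ 2 + b j

open Classical in
/-- The primes `p ≤ x` without other primes at distance at most `L * log x` for which all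
`(s_j * p + t_j) ^ 2 + b_j` are prime. -/
noncomputable def arguments {r : ℕ} (s : Fin r → ℕ) (t : Fin r → ℤ) (L : ℝ) (b : Fin r → ℕ)
    (x : ℕ) : Finset ℕ :=
  (Icc 1 x).filter (fun p => p.Prime ∧ Isolated (L * Real.log x) p ∧
    ∀ j, ((s j * p + t j) ^ 2 + b j).toNat.Prime)

open Classical in
/-- The admissible vectors `1 ≤ b_j ≤ K x ^ 2` with few arguments. -/
noncomputable def exceptions {r : ℕ} (s : Fin r → ℕ) (t : Fin r → ℤ) (L c : ℝ) (K x : ℕ) :
    Finset (Fin r → ℕ) :=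
  (Fintype.piFinset (fun _ : Fin r => Icc 1 (K * x ^ 2))).filter (fun b =>
    Admissible s t b ∧ ((arguments s t L b x).card : ℝ) < c * (x / Real.log x ^ (r + 1)))

theorem result (r : ℕ) (s : Fin r → ℕ) (hs : ∀ j, 2 ≤ s j) (t : Fin r → ℤ) (L : ℝ) (K : ℕ)
    (κ : ℝ) (hκ : 0 < κ) : (∃ c : ℝ, 0 < c ∧ ∃ x₀ : ℕ, ∀ x : ℕ, x₀ ≤ x →
      ((exceptions s t L c K x).card : ℝ) ≤ κ * ((x : ℝ) ^ 2) ^ r) ∧
    ∀ b : ℕ, Admissible (fun _ : Fin 1 => 2) (fun _ => 0) (fun _ => b) ↔ Odd b ∧ b % 3 ≠ 2 := by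
  classical
  have main : ∀ (r : ℕ) (s : Fin r → ℕ) (t : Fin r → ℤ), (∀ j, 2 ≤ s j) →
      ∃ g : Fin r → ℤ[X], (∀ j, (g j).natDegree = 2) ∧ (∀ j, (g j).leadingCoeff = (s j : ℤ) ^ 2) ∧
        ∀ j, ∀ n : ℤ, (g j).eval n = (s j * n + t j) ^ 2 := by
    intro r s t hs
    have hne : ∀ j, ((s j : ℤ) ^ 2) ≠ 0 := fun j => by
      have := hs j
      positivity
    refine ⟨fun j => C ((s j : ℤ) ^ 2) * X ^ 2 + C (2 * s j * t j) * X + C (t j ^ 2), ?_, ?_, ?_⟩
    · intro j
      exact natDegree_quadratic (hne j)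
    · intro j
      exact leadingCoeff_quadratic (hne j)
    · intro j n
      simp only [eval_add, eval_mul, eval_C, eval_pow, eval_X]
      ring
  constructor
  · obtain ⟨g, hgd, hgl, hge⟩ := main r s t hs
    have hΛ0 : (0 : ℝ) < 2 * max L 1 := by
      have : (1 : ℝ) ≤ max L 1 := le_max_right _ _
      linarith
    obtain ⟨c, hc, x₀, h⟩ := Pool.Agent.TH882.KS.sys_most g
      (fun j => by rw [hgd j]; norm_num)
      (fun j => by
        rw [hgl j]
        have := hs j
        positivity) (Pool.Agent.TH882.IS.IP (2 * max L 1))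
      (Pool.Agent.TH882.TS.IP_most _ hΛ0) K κ hκ
    refine ⟨c, hc, max x₀ (4 * 3 ^ 2), fun x hx => ?_⟩
    have hx0 : x₀ ≤ x := (le_max_left _ _).trans hx
    have hx1 : 4 * 3 ^ 2 ≤ x := (le_max_right _ _).trans hx
    have h1 := h x hx0
    have e0 : ∏ j, (x : ℝ) ^ (g j).natDegree = ((x : ℝ) ^ 2) ^ r := by
      rw [prod_congr rfl fun j _ => by rw [hgd j]]
      rw [prod_const, card_univ, Fintype.card_fin]
    rw [e0] at h1
    refine le_trans ?_ h1
    apply Nat.cast_le.2
    apply card_le_card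
    intro b hb
    unfold exceptions at hb
    rw [mem_filter, Fintype.mem_piFinset] at hb
    rw [mem_filter, Fintype.mem_piFinset]
    obtain ⟨hc1, hc2, hc3⟩ := hb
    refine ⟨fun j => ?_, ?_, lt_of_le_of_lt ?_ hc3⟩
    · rw [hgd j]
      exact hc1 j
    · intro l hlp
      obtain ⟨n, hn1, hn2⟩ := hc2 l hlp
      refine ⟨n, hn1, fun j h => hn2 j ?_⟩
      rw [hge j n, one_mul, add_comm] at h
      exact h
    · apply Nat.cast_le.2
      apply card_le_card
      intro n hn
      unfold Pool.Agent.TH882.KS.SysA at hn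
      rw [mem_filter, mem_Ico] at hn
      obtain ⟨⟨hn1, hn2⟩, hn3, hn4⟩ := hn
      obtain ⟨h5, h6⟩ := Pool.Agent.TH882.TS.iso_of L 3 x (by omega) hx1 _ n hn3
      unfold arguments
      rw [mem_filter, mem_Icc]
      refine ⟨⟨h5.pos, by omega⟩, h5, h6, fun j => ?_⟩
      have h7 := hn4 j
      rw [hge j, add_comm] at h7
      exact h7
  · intro b
    constructor
    · intro h
      obtain ⟨n, hn1, hn2⟩ := h 2 Nat.prime_two
      obtain ⟨m, hm1, hm2⟩ := h 3 Nat.prime_three
      have h1 := hn2 0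
      have h2 := hm2 0
      push_cast at h1 h2 hm1
      rw [add_zero] at h1 h2
      constructor
      · rw [Nat.odd_iff]
        by_contra hcon
        apply h1
        have e1 : (2 * n) ^ 2 + (b : ℤ) = 2 * (2 * n ^ 2) + b := by ring
        rw [e1]
        exact dvd_add (dvd_mul_right _ _) (by omega)
      · intro h3
        apply h2
        have h4 : m % 3 = 1 ∨ m % 3 = 2 := by omega
        obtain ⟨u, hu⟩ : ∃ u : ℤ, (b : ℤ) = 3 * u + 2 := ⟨b / 3, by omega⟩
        rcases h4 with h4 | h4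
        · obtain ⟨k, hk⟩ : ∃ k : ℤ, m = 3 * k + 1 := ⟨m / 3, by omega⟩
          exact ⟨12 * k ^ 2 + 8 * k + 2 + u, by rw [hk, hu]; ring⟩
        · obtain ⟨k, hk⟩ : ∃ k : ℤ, m = 3 * k + 2 := ⟨m / 3, by omega⟩
          exact ⟨12 * k ^ 2 + 16 * k + 6 + u, by rw [hk, hu]; ring⟩
    · rintro ⟨hb1, hb2⟩ l hlp
      rw [Nat.odd_iff] at hb1
      rcases Nat.lt_or_ge l 4 with h4 | h4
      · have hl2 := hlp.two_le
        have h5 : l = 2 ∨ l = 3 := by omega
        rcases h5 with rfl | rfl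
        · refine ⟨1, by norm_num, fun j hd => ?_⟩
          have h6 : (((2 : ℕ) : ℤ) * 1 + 0) ^ 2 + (b : ℤ) = 4 + b := by norm_num
          rw [h6] at hd
          have h7 : (4 + (b : ℤ)) % 2 = 0 := Int.emod_eq_zero_of_dvd (by exact_mod_cast hd)
          omega
        · refine ⟨1, by norm_num, fun j hd => ?_⟩
          have h6 : (((2 : ℕ) : ℤ) * 1 + 0) ^ 2 + (b : ℤ) = 4 + b := by norm_num
          rw [h6] at hd
          have h7 : (4 + (b : ℤ)) % 3 = 0 := Int.emod_eq_zero_of_dvd (by exact_mod_cast hd)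
          omega
      · have hl4 : l ≠ 4 := by
          rintro rfl
          exact absurd hlp (by norm_num)
        obtain ⟨g, hgd, hgl, hge⟩ := main 1 (fun _ => 2) (fun _ => 0) (fun _ => le_refl 2)
        obtain ⟨n, hn1, hn2⟩ := Pool.Agent.TH882.TS.wit (fun _ : Fin 1 => (1 : ℤ))
          (fun _ => Or.inl rfl) g (fun j => by rw [hgd j]; norm_num) l hlp
          (fun j hd => by
            rw [hgl j] at hd
            have h8 : (l : ℤ) ∣ ((4 : ℕ) : ℤ) := by exact_mod_cast hd
            have h9 : l ∣ 4 := by exact_mod_cast h8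
            have h10 := Nat.le_of_dvd (by norm_num) h9
            omega)
          (by rw [Fin.sum_univ_one, hgd 0]; omega) (fun _ => b)
        refine ⟨n, hn1, fun j hd => hn2 j ?_⟩
        rw [hge j, one_mul, add_comm]
        exact hd

end Pool.Agent.Results.MP_7169d5_nt.MultiplesOfIsolatedPrimes
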